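import Mathlib
import Pool.Agent.H34.L.TH161.KS.Defs

/-!
# Job 3061 (project KS): the choice of the parameters
-/

set_option autoImplicit false

open Filter

namespace Pool.Agent.TH511.KS_PAR

open Pool.Agent.TH161.KS

theorem t_PAR : P_PAR := by
  intro c C C' c' CD ε L₁ hc hC hC' hc' hCD hε hε2
  have hC0 : 0 < C := by linarith
  have hC'0 : 0 < C' := by linarith
  have hCD0 : 0 < CD := by linarith
  obtain ⟨δ, hδ⟩ : ∃ δ : ℝ, δ = ε / (300 / c + 1) := ⟨_, rfl⟩
  have hk0 : 0 < 300 / c + 1 := by positivity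
  have hδ0 : 0 < δ := by rw [hδ]; positivity
  have h1 : ∀ᶠ u : ℝ in atTop, ‖Real.log u ^ 3‖ ≤ (ε ^ 4 / (1331 * CD)) * ‖id u‖ :=
    Real.isLittleO_pow_log_id_atTop.def (by positivity)
  obtain ⟨u, hu1, hu⟩ := (h1.and (eventually_ge_atTop (300 + 5 * C / ε + |L₁| +
    417792 * C + 6144 * C' + 69120 + 2 / c' + 109 / δ ^ 2))).exists
  have e1 : 0 ≤ 5 * C / ε := by positivity
  have e2 : 0 ≤ |L₁| := abs_nonneg _
  have e3 : 0 ≤ 2 / c' := by positivity
  have e4 : 0 ≤ 109 / δ ^ 2 := by positivity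
  have u300 : 300 ≤ u := by linarith
  have u0 : 0 < u := by linarith
  have u1 : 1 ≤ u := by linarith
  have uK : 5 * C / ε ≤ u := by linarith
  have uL : L₁ ≤ u := (le_abs_self _).trans (by linarith)
  have uC : 417792 * C ≤ u := by linarith
  have uC' : 6144 * C' ≤ u := by linarith
  have u6 : 69120 ≤ u := by linarith
  have uc' : 2 / c' ≤ u := by linarith
  have uδ : 109 / δ ^ 2 ≤ u := by linarith
  have hlog0 : 0 ≤ Real.log u := Real.log_nonneg u1
  rw [Real.norm_of_nonneg (pow_nonneg hlog0 3), id, Real.norm_of_nonneg u0.le] at hu1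
  -- the exponent
  have hη : (0 : ℝ) < 1 / u ^ 8 := by positivity
  have harg : 5 * C * u ^ 2 / (1 / u ^ 8 * ε) = 5 * C / ε * u ^ 10 := by
    field_simp
  have hK1 : 1 ≤ 5 * C / ε := by
    rw [le_div_iff₀ hε]
    linarith
  have hl1 : 0 ≤ Real.log (5 * C * u ^ 2 / (1 / u ^ 8 * ε)) := by
    rw [harg]
    exact Real.log_nonneg (one_le_mul_of_one_le_of_one_le hK1 (one_le_pow₀ u1))
  have hl2 : Real.log (5 * C * u ^ 2 / (1 / u ^ 8 * ε)) ≤ 11 * Real.log u := by
    rw [harg]
    calc Real.log (5 * C / ε * u ^ 10) ≤ Real.log (u * u ^ 10) :=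
          Real.log_le_log (by positivity) (mul_le_mul_of_nonneg_right uK (by positivity))
      _ = Real.log (u ^ 11) := by congr 1; ring
      _ = 11 * Real.log u := by rw [Real.log_pow]; norm_num
  obtain ⟨F, hF⟩ : ∃ F : ℝ, F = CD * Real.log (5 * C * u ^ 2 / (1 / u ^ 8 * ε)) ^ 3 / ε ^ 4 :=
    ⟨_, rfl⟩
  have hF0 : 0 ≤ F := by rw [hF]; positivity
  have hFu : F ≤ u := by
    have h2 : Real.log (5 * C * u ^ 2 / (1 / u ^ 8 * ε)) ^ 3 ≤ (11 * Real.log u) ^ 3 :=
      pow_le_pow_left₀ hl1 hl2 3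
    rw [hF, div_le_iff₀ (by positivity)]
    calc CD * Real.log (5 * C * u ^ 2 / (1 / u ^ 8 * ε)) ^ 3 ≤ CD * (11 * Real.log u) ^ 3 :=
          mul_le_mul_of_nonneg_left h2 hCD0.le
      _ = 1331 * CD * Real.log u ^ 3 := by ring
      _ ≤ 1331 * CD * ((ε ^ 4 / (1331 * CD)) * u) :=
          mul_le_mul_of_nonneg_left hu1 (by positivity)
      _ = u * ε ^ 4 := by field_simp
  have hsq : √(1 / u ^ 8) = 1 / u ^ 4 := by
    rw [Real.sqrt_eq_iff_mul_self_eq (by positivity) (by positivity)]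
    field_simp
  have hexp : u ^ 3 / 6 ≤ Real.exp u := by
    have := Real.pow_div_factorial_le_exp u u0.le 3
    norm_num [Nat.factorial] at this
    linarith
  refine ⟨1 / u ^ 8, u ^ 2, Real.exp F, 18 * Real.log (272 * Real.exp F), hη, ?_, one_le_pow₀ u1,
    ?_, Real.one_le_exp hF0, ?_, ?_, ?_, ?_, ?_, ?_⟩
  · rw [div_lt_one (by positivity)]
    exact one_lt_pow₀ (by linarith) (by norm_num)
  · nlinarith
  · rw [Real.log_mul (by norm_num) (Real.exp_pos _).ne', Real.log_exp]
    have : Real.log 2 ≤ Real.log 272 := Real.log_le_log (by norm_num) (by norm_num)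
    have := Real.log_two_gt_d9
    linarith
  · rw [← hF]
  · -- 544 C L exp(-1/(23040 √η)) ≤ 1/(128 N²)
    rw [hsq, le_div_iff₀ (by positivity)]
    have h2 : 69632 * C * u ^ 2 ≤ Real.exp u := by
      refine le_trans ?_ hexp
      rw [le_div_iff₀ (by norm_num)]
      calc 69632 * C * u ^ 2 * 6 = (417792 * C) * u ^ 2 := by ring
        _ ≤ u * u ^ 2 := mul_le_mul_of_nonneg_right uC (by positivity)
        _ = u ^ 3 := by ring
    have h3 : 3 * u ≤ 1 / (23040 * (1 / u ^ 4)) := by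
      have : 1 / (23040 * (1 / u ^ 4)) = u ^ 4 / 23040 := by field_simp
      rw [this, le_div_iff₀ (by norm_num)]
      calc 3 * u * 23040 = 69120 * u := by ring
        _ ≤ u * u := mul_le_mul_of_nonneg_right u6 u0.le
        _ = u ^ 2 := by ring
        _ ≤ u ^ 4 := pow_le_pow_right₀ u1 (by norm_num)
    calc 544 * C * u ^ 2 * Real.exp (-(1 / (23040 * (1 / u ^ 4)))) * (128 * Real.exp F ^ 2)
        = (69632 * C * u ^ 2) * Real.exp (-(1 / (23040 * (1 / u ^ 4)))) * Real.exp F ^ 2 := by ring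
      _ ≤ Real.exp u * Real.exp (-(3 * u)) * Real.exp u ^ 2 := by gcongr
      _ = 1 := by
          rw [← Real.exp_nat_mul, ← Real.exp_add, ← Real.exp_add]
          rw [Real.exp_eq_one_iff]
          push_cast
          ring
  · rw [le_div_iff₀ (by positivity)]
    have h2 : 1024 * C' * u ^ 2 ≤ Real.exp u := by
      refine le_trans ?_ hexp
      rw [le_div_iff₀ (by norm_num)]
      calc 1024 * C' * u ^ 2 * 6 = (6144 * C') * u ^ 2 := by ring
        _ ≤ u * u ^ 2 := mul_le_mul_of_nonneg_right uC' (by positivity)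
        _ = u ^ 3 := by ring
    have h3 : 2 * u ≤ c' * u ^ 2 := by
      rw [div_le_iff₀ hc'] at uc'
      nlinarith
    calc 16 * C' * u ^ 2 * Real.exp (-(c' * u ^ 2)) * (64 * Real.exp F)
        = (1024 * C' * u ^ 2) * Real.exp (-(c' * u ^ 2)) * Real.exp F := by ring
      _ ≤ Real.exp u * Real.exp (-(2 * u)) * Real.exp u := by gcongr
      _ = 1 := by
          rw [← Real.exp_add, ← Real.exp_add]
          rw [Real.exp_eq_one_iff]
          ring
  · have h2 : -(18 * Real.log (272 * Real.exp F) / 18) = -Real.log (272 * Real.exp F) := by ring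
    rw [h2, Real.exp_neg, Real.exp_log (by positivity)]
    have : 0 < Real.exp F := Real.exp_pos F
    field_simp
    norm_num
  · rw [hsq, Real.log_mul (by norm_num) (Real.exp_pos _).ne', Real.log_exp]
    have h272 : Real.log 272 ≤ u := by
      have := Real.log_le_sub_one_of_pos (show (0 : ℝ) < 272 by norm_num)
      linarith
    have h2 : 3 * (18 * (Real.log 272 + F)) * (1 / u ^ 4) ≤ 108 / u := by
      rw [mul_one_div, div_le_div_iff₀ (by positivity) u0]
      have h3 : u * u ≤ u ^ 4 := by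
        calc u * u = u ^ 2 := by ring
          _ ≤ u ^ 4 := pow_le_pow_right₀ u1 (by norm_num)
      calc 3 * (18 * (Real.log 272 + F)) * u ≤ 3 * (18 * (u + u)) * u := by gcongr
        _ = 108 * (u * u) := by ring
        _ ≤ 108 * u ^ 4 := by linarith
    have h3 : 108 / u < δ ^ 2 := by
      rw [div_lt_iff₀ u0]
      rw [div_le_iff₀ (by positivity)] at uδ
      nlinarith
    have h4 : √(3 * (18 * (Real.log 272 + F)) * (1 / u ^ 4)) < δ := by
      rw [Real.sqrt_lt' hδ0]
      exact h2.trans_lt h3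
    calc (300 / c + 1) * √(3 * (18 * (Real.log 272 + F)) * (1 / u ^ 4)) < (300 / c + 1) * δ :=
          mul_lt_mul_of_pos_left h4 hk0
      _ = ε := by rw [hδ]; field_simp

end Pool.Agent.TH511.KS_PAR
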